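import Pool.Agent.Lib.MP_081fbf_lc.Proof

set_option autoImplicit false

namespace Pool.Agent.Results.MP_081fbf_lc.ExactHeight

open Pool.Agent.Lib.MP_081fbf_lc

/-- `Der m x y`: the string `x` rewrites to `y` in finitely many steps of `R ∪ S`, of which `m`
apply a rule of `R`. -/
inductive Der : ℕ → List (Fin 4) → List (Fin 4) → Prop
  | refl (x : List (Fin 4)) : Der 0 x x
  | strict {m : ℕ} {x y z : List (Fin 4)} : Step strictRules x y → Der m y z → Der (m + 1) x z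
  | weak {m : ℕ} {x y z : List (Fin 4)} : Step weakRules x y → Der m y z → Der m x z

/-! The potential -/

/-- The state of a string: three views of the current block (no leading `d`, at most one, at most
two count), each with a mass and a number of steps, and whether a `c` has been read. -/
structure St where
  v0 : ℕ
  v1 : ℕ
  v2 : ℕ
  t0 : ℕ
  t1 : ℕ
  t2 : ℕ
  f : Bool

/-- The weight of the mass. -/
def wt (f : Bool) (v : ℕ) : ℕ := if f then 3 * v else v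

/-- The action of a letter. -/
def ac (i : Fin 4) (p : St) : St :=
  if i = 0 then ⟨p.v2 + 3, p.v2 + 3, p.v2 + 3, p.t2 + 1, p.t2 + 1, p.t2 + 1, p.f⟩
  else if i = 1 then ⟨p.v1 + 1, p.v1 + 1, p.v1 + 1, p.t1, p.t1, p.t1, p.f⟩
  else if i = 2 then ⟨0, 0, 0, p.t0 + wt p.f p.v0, p.t0 + wt p.f p.v0, p.t0 + wt p.f p.v0, true⟩
  else ⟨p.v0, 2 * p.v0, 2 * p.v1, p.t0 + 1, p.t0 + p.v0 + 1, p.t1 + p.v1 + 1, p.f⟩

theorem ac0 (p : St) :
    ac 0 p = ⟨p.v2 + 3, p.v2 + 3, p.v2 + 3, p.t2 + 1, p.t2 + 1, p.t2 + 1, p.f⟩ := rfl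
theorem ac1 (p : St) : ac 1 p = ⟨p.v1 + 1, p.v1 + 1, p.v1 + 1, p.t1, p.t1, p.t1, p.f⟩ := rfl
theorem ac2 (p : St) : ac 2 p =
    ⟨0, 0, 0, p.t0 + wt p.f p.v0, p.t0 + wt p.f p.v0, p.t0 + wt p.f p.v0, true⟩ := rfl
theorem ac3 (p : St) : ac 3 p =
    ⟨p.v0, 2 * p.v0, 2 * p.v1, p.t0 + 1, p.t0 + p.v0 + 1, p.t1 + p.v1 + 1, p.f⟩ := rfl
theorem wt1 (v : ℕ) : wt true v = 3 * v := rfl
theorem wt0 (v : ℕ) : wt false v = v := rfl

/-- The state of a string. -/
def st (w : List (Fin 4)) : St := w.foldr ac ⟨0, 0, 0, 0, 0, 0, false⟩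

theorem st_cons (i : Fin 4) (w : List (Fin 4)) : st (i :: w) = ac i (st w) := rfl

/-- The potential. -/
def pot (w : List (Fin 4)) : ℕ := (st w).t0 + wt (st w).f (st w).v0

theorem st_inv (w : List (Fin 4)) : (st w).v0 ≤ (st w).v1 ∧ (st w).v1 ≤ (st w).v2 ∧
    (st w).v1 ≤ 2 * (st w).v0 ∧ (st w).v2 ≤ 2 * (st w).v1 ∧ (st w).t0 ≤ (st w).t1 ∧
    (st w).t1 ≤ (st w).t2 ∧ (st w).t1 ≤ (st w).t0 + (st w).v0 ∧
    (st w).t2 ≤ (st w).t1 + (st w).v1 := by
  induction w with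
  | nil => simp [st]
  | cons i w ih =>
    rw [st_cons]
    rcases fin4 i with rfl | rfl | rfl | rfl <;> simp only [ac0, ac1, ac2, ac3] <;> omega

/-- The strict order on states. -/
def Gt (p q : St) : Prop := q.f = p.f ∧ q.v0 ≤ p.v0 ∧ q.v1 ≤ p.v1 ∧ q.v2 ≤ p.v2 ∧
  q.t0 + wt q.f q.v0 < p.t0 + wt p.f p.v0 ∧ q.t1 + wt q.f q.v1 < p.t1 + wt p.f p.v1 ∧
  q.t2 + wt q.f q.v2 < p.t2 + wt p.f p.v2

theorem Gt.ctx (u : List (Fin 4)) {x y : List (Fin 4)} (h : Gt (st x) (st y)) :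
    Gt (st (u ++ x)) (st (u ++ y)) := by
  induction u with
  | nil => exact h
  | cons i u ih =>
    rw [List.cons_append, List.cons_append, st_cons, st_cons]
    generalize st (u ++ x) = p, st (u ++ y) = q at ih
    obtain ⟨_, _, _, _, _, _, f⟩ := p
    obtain ⟨_, _, _, _, _, _, g⟩ := q
    obtain ⟨rfl, ih⟩ := ih
    cases g <;> rcases fin4 i with rfl | rfl | rfl | rfl <;>
      simp only [Gt, ac0, ac1, ac2, ac3, wt0, wt1, true_and] at ih ⊢ <;> omega

theorem pot_strict {x y : List (Fin 4)} (h : Step strictRules x y) : pot y < pot x := by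
  obtain ⟨u, v, l, r, hlr, rfl, rfl⟩ := h
  have hv := st_inv v
  rw [List.append_assoc, List.append_assoc]
  refine (Gt.ctx u ?_).2.2.2.2.1
  simp only [strictRules, Set.mem_insert_iff, Set.mem_singleton_iff, Prod.mk.injEq] at hlr
  rcases hlr with ⟨rfl, rfl⟩ | ⟨rfl, rfl⟩ | ⟨rfl, rfl⟩ | ⟨rfl, rfl⟩ | ⟨rfl, rfl⟩ | ⟨rfl, rfl⟩ <;>
    simp only [List.cons_append, List.nil_append, st_cons] <;>
    generalize st v = p at hv <;> obtain ⟨_, _, _, _, _, _, f⟩ := p <;> cases f <;>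
    simp only [Gt, ac0, ac1, ac2, ac3, wt0, wt1, true_and] at hv ⊢ <;> omega

theorem st_ctx (u : List (Fin 4)) {x y : List (Fin 4)} (h : st x = st y) :
    st (u ++ x) = st (u ++ y) := by
  induction u with
  | nil => exact h
  | cons i u ih => rw [List.cons_append, List.cons_append, st_cons, st_cons, ih]

theorem pot_weak {x y : List (Fin 4)} (h : Step weakRules x y) : pot y = pot x := by
  obtain ⟨u, v, l, r, hlr, rfl, rfl⟩ := h
  rw [List.append_assoc, List.append_assoc]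
  have key : st ([1, 3, 1] ++ v) = st ([0, 3] ++ v) := by
    simp only [List.cons_append, List.nil_append, st_cons, ac0, ac1, ac3, St.mk.injEq, and_true]
    omega
  simp only [weakRules, Set.mem_insert_iff, Set.mem_singleton_iff, Prod.mk.injEq] at hlr
  rcases hlr with ⟨rfl, rfl⟩ | ⟨rfl, rfl⟩ <;> rw [pot, pot, st_ctx u key]

theorem Der.le_pot {m : ℕ} {x y : List (Fin 4)} (h : Der m x y) : m ≤ pot x := by
  induction h with
  | refl => exact Nat.zero_le _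
  | strict h _ ih => exact ih.trans_lt (pot_strict h)
  | weak h _ ih => exact ih.trans_eq (pot_weak h)

/-! The largest potential of a string of given length -/

/-- Bounds for the masses. -/
def BV (r x : ℕ) (p : St) : Prop :=
  (r = 0 → 2 * p.v0 + 2 ≤ 5 * x ∧ 2 * p.v1 + 4 ≤ 7 * x ∧ p.v2 + 4 ≤ 4 * x) ∧
  (r = 1 → p.v0 + 1 ≤ 4 * x ∧ p.v1 + 2 ≤ 5 * x ∧ p.v2 + 4 ≤ 7 * x) ∧
  (r = 2 → p.v0 + 1 ≤ 7 * x ∧ p.v1 + 2 ≤ 8 * x ∧ p.v2 + 4 ≤ 10 * x)

/-- Bounds for the potentials once a `c` has been read. -/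
def BG (r x : ℕ) (p : St) : Prop :=
  (r = 0 → p.t0 + 3 * p.v0 + 7 ≤ 10 * x ∧ p.t1 + 3 * p.v1 + 11 ≤ 14 * x ∧
    p.t2 + 3 * p.v2 + 16 ≤ 16 * x) ∧
  (r = 1 → p.t0 + 3 * p.v0 + 6 ≤ 16 * x ∧ p.t1 + 3 * p.v1 + 10 ≤ 20 * x ∧
    p.t2 + 3 * p.v2 + 18 ≤ 28 * x) ∧
  (r = 2 → p.t0 + 3 * p.v0 + 8 ≤ 28 * x ∧ p.t1 + 3 * p.v1 + 9 ≤ 32 * x ∧
    p.t2 + 3 * p.v2 + 17 ≤ 40 * x)

/-- Bounds for the potentials before a `c` has been read. -/
def BK (r x : ℕ) (p : St) : Prop :=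
  (r = 0 → p.t0 + p.v0 + 5 ≤ 5 * x ∧ p.t1 + p.v1 + 7 ≤ 7 * x ∧ p.t2 + p.v2 + 8 ≤ 8 * x) ∧
  (r = 1 → p.t0 + p.v0 + 4 ≤ 8 * x ∧ p.t1 + p.v1 + 6 ≤ 10 * x ∧ p.t2 + p.v2 + 10 ≤ 14 * x) ∧
  (r = 2 → p.t0 + p.v0 + 6 ≤ 14 * x ∧ p.t1 + p.v1 + 5 ≤ 16 * x ∧ p.t2 + p.v2 + 9 ≤ 20 * x)

theorem pw (m : ℕ) : 1 ≤ 4 ^ (m / 3) ∧ ((m % 3 = 0 ∧ (m + 1) % 3 = 1 ∧
    4 ^ ((m + 1) / 3) = 4 ^ (m / 3)) ∨ (m % 3 = 1 ∧ (m + 1) % 3 = 2 ∧
    4 ^ ((m + 1) / 3) = 4 ^ (m / 3)) ∨ (m % 3 = 2 ∧ (m + 1) % 3 = 0 ∧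
    4 ^ ((m + 1) / 3) = 4 * 4 ^ (m / 3))) := by
  refine ⟨Nat.one_le_pow _ _ (by omega), ?_⟩
  rcases (show m % 3 = 0 ∨ m % 3 = 1 ∨ m % 3 = 2 by omega) with h | h | h
  · exact Or.inl ⟨h, by omega, by rw [show (m + 1) / 3 = m / 3 by omega]⟩
  · exact Or.inr (Or.inl ⟨h, by omega, by rw [show (m + 1) / 3 = m / 3 by omega]⟩)
  · exact Or.inr (Or.inr ⟨h, by omega, by rw [show (m + 1) / 3 = m / 3 + 1 by omega, pow_succ']⟩)

theorem st_bd (w : List (Fin 4)) :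
    ((st w).f = false ∧ BV (w.length % 3) (4 ^ (w.length / 3)) (st w) ∧
      BK (w.length % 3) (4 ^ (w.length / 3)) (st w)) ∨
    ((st w).f = true ∧ ∃ m, w.length = m + 1 ∧ BV (m % 3) (4 ^ (m / 3)) (st w) ∧
      BG (m % 3) (4 ^ (m / 3)) (st w)) := by
  induction w with
  | nil => exact Or.inl (by simp [st, BV, BK])
  | cons i w ih =>
    rw [st_cons, List.length_cons]
    generalize st w = p, w.length = n at ih
    obtain ⟨_, _, _, _, _, _, f⟩ := p
    rcases ih with ⟨rfl, h1, h2⟩ | ⟨rfl, m, rfl, h1, h2⟩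
    · obtain ⟨e0, e⟩ := pw n
      rcases fin4 i with rfl | rfl | rfl | rfl
      on_goal 3 => refine Or.inr ⟨rfl, n, rfl, ?_⟩
      all_goals
        try refine Or.inl ⟨rfl, ?_⟩
        generalize 4 ^ ((n + 1) / 3) = y, 4 ^ (n / 3) = x, (n + 1) % 3 = s, n % 3 = r at *
        rcases e with ⟨rfl, rfl, rfl⟩ | ⟨rfl, rfl, rfl⟩ | ⟨rfl, rfl, rfl⟩ <;>
          simp only [BV, BK, BG, ac0, ac1, ac2, ac3, wt0, true_imp_iff] at h1 h2 ⊢ <;> omega
    · obtain ⟨e0, e⟩ := pw m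
      rcases fin4 i with rfl | rfl | rfl | rfl
      all_goals
        refine Or.inr ⟨rfl, m + 1, rfl, ?_⟩
        generalize 4 ^ ((m + 1) / 3) = y, 4 ^ (m / 3) = x, (m + 1) % 3 = s, m % 3 = r at *
        rcases e with ⟨rfl, rfl, rfl⟩ | ⟨rfl, rfl, rfl⟩ | ⟨rfl, rfl, rfl⟩ <;>
          simp only [BV, BG, ac0, ac1, ac2, ac3, wt1, true_imp_iff] at h1 h2 ⊢ <;> omega

theorem pot_le (w : List (Fin 4)) (k : ℕ) : (w.length = 3 * k + 2 → pot w ≤ 16 * 4 ^ k - 6) ∧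
    (w.length = 3 * k + 3 → pot w ≤ 28 * 4 ^ k - 8) ∧
    (w.length = 3 * k + 4 → pot w ≤ 40 * 4 ^ k - 7) := by
  have e0 : 1 ≤ 4 ^ k := Nat.one_le_pow _ _ (by omega)
  have e1 : 4 ^ (k + 1) = 4 * 4 ^ k := pow_succ' _ _
  rw [pot]
  rcases st_bd w with ⟨h, -, h2⟩ | ⟨h, m, hm, -, h2⟩ <;> rw [h]
  · refine ⟨fun e => ?_, fun e => ?_, fun e => ?_⟩
    · have := (h2.2.2 (by omega)).1
      rw [show w.length / 3 = k by omega] at this
      rw [wt0]; omega
    · have := (h2.1 (by omega)).1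
      rw [show w.length / 3 = k + 1 by omega] at this
      rw [wt0]; omega
    · have := (h2.2.1 (by omega)).1
      rw [show w.length / 3 = k + 1 by omega] at this
      rw [wt0]; omega
  · refine ⟨fun e => ?_, fun e => ?_, fun e => ?_⟩
    · have := (h2.2.1 (by omega)).1
      rw [show m / 3 = k by omega] at this
      rw [wt1]; omega
    · have := (h2.2.2 (by omega)).1
      rw [show m / 3 = k by omega] at this
      rw [wt1]; omega
    · have := (h2.1 (by omega)).1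
      rw [show m / 3 = k + 1 by omega] at this
      rw [wt1]; omega

/-! Long derivations -/

open List

theorem Der.trans {m n : ℕ} {x y z : List (Fin 4)} (h : Der m x y) (h' : Der n y z) :
    Der (m + n) x z := by
  induction h with
  | refl => rwa [Nat.zero_add]
  | strict h _ ih => rw [Nat.add_right_comm]; exact .strict h (ih h')
  | weak h _ ih => exact .weak h (ih h')

theorem step_ctx {T : Set (List (Fin 4) × List (Fin 4))} {x y : List (Fin 4)} (h : Step T x y)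
    (p q : List (Fin 4)) : Step T (p ++ x ++ q) (p ++ y ++ q) := by
  obtain ⟨u, v, l, r, h, rfl, rfl⟩ := h
  exact ⟨p ++ u, v ++ q, l, r, h, by simp only [append_assoc], by simp only [append_assoc]⟩

theorem Der.ctx {m : ℕ} {x y : List (Fin 4)} (h : Der m x y) (p q : List (Fin 4)) :
    Der m (p ++ x ++ q) (p ++ y ++ q) := by
  induction h with
  | refl => exact .refl _
  | strict h _ ih => exact .strict (step_ctx h p q) ih
  | weak h _ ih => exact .weak (step_ctx h p q) ih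

theorem Der.cast {m m' : ℕ} {x y x' y' : List (Fin 4)} (h : Der m x y) (e : m = m') (e1 : x = x')
    (e2 : y = y') : Der m' x' y' := e ▸ e1 ▸ e2 ▸ h

theorem one {l r : List (Fin 4)} (h : (l, r) ∈ strictRules) : Der 1 l r :=
  .strict ⟨[], [], l, r, h, by simp, by simp⟩ (.refl _)

theorem zero {l r : List (Fin 4)} (h : (l, r) ∈ weakRules) : Der 0 l r :=
  .weak ⟨[], [], l, r, h, by simp, by simp⟩ (.refl _)

theorem d_a : Der 1 [0] [1, 1, 1] := one (by simp [strictRules])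
theorem d_d : Der 1 [3] [] := one (by simp [strictRules])
theorem d_bc : Der 1 [1, 2] [2, 3, 3] := one (by simp [strictRules])
theorem d_bdb : Der 0 [1, 3, 1] [0, 3] := zero (by simp [weakRules])
theorem d_ad : Der 0 [0, 3] [1, 3, 1] := zero (by simp [weakRules])

theorem cross (m : ℕ) : Der m ([1, 3] ++ replicate m 1) (replicate (2 * m + 1) 1 ++ [3]) := by
  induction m with
  | zero => exact .refl _
  | succ m ih =>
    exact (((d_bdb.ctx [] (replicate m 1)).trans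
      ((d_a.ctx [] (3 :: replicate m 1)).cast rfl (by simp) rfl)).trans
      ((ih.ctx [1, 1] []).cast rfl (by simp) rfl)).cast (by omega) (by simp [replicate_succ])
      (by simp [replicate_succ, Nat.mul_add])

theorem cross2 (m : ℕ) :
    Der (3 * m + 1) ([0, 3, 3] ++ replicate m 1) (replicate (4 * m + 3) 1 ++ [3, 3]) :=
  (((d_ad.ctx [] (3 :: replicate m 1)).trans
    (((cross m).ctx [1, 3] []).cast rfl (by simp) rfl)).trans
    (((cross (2 * m + 1)).ctx [] [3]).cast rfl (by simp) rfl)).cast (by omega) (by simp)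
    (by rw [show 2 * (2 * m + 1) + 1 = 4 * m + 3 by omega]; simp)

theorem del (j : ℕ) : Der j (replicate j 3) [] := by
  induction j with
  | zero => exact .refl _
  | succ j ih =>
    exact ((d_d.ctx [] (replicate j 3)).trans (ih.cast rfl (by simp) rfl)).cast (by omega)
      (by simp [replicate_succ]) rfl

theorem eat (m : ℕ) : Der (3 * m) (replicate m 1 ++ [2]) [2] := by
  induction m with
  | zero => exact .refl _
  | succ m ih =>
    exact (((ih.ctx [1] []).trans (d_bc.cast rfl (by simp) rfl)).trans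
      (((del 2).ctx [2] []).cast rfl rfl rfl)).cast (by omega) (by simp [replicate_succ]) rfl

/-- The string `(add)^k`. -/
def pre (k : ℕ) : List (Fin 4) := (replicate k [0, 3, 3]).flatten

theorem pre_succ (k : ℕ) : pre (k + 1) = [0, 3, 3] ++ pre k := rfl

theorem length_pre (k : ℕ) : (pre k).length = 3 * k := by
  induction k with
  | zero => rfl
  | succ k ih => rw [pre_succ, length_append, ih]; simp; omega

theorem grow (m k : ℕ) : ∃ M, M + 1 = (m + 1) * 4 ^ k ∧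
    Der (M - m) (pre k ++ replicate m 1) (replicate M 1) ∧ m ≤ M := by
  induction k with
  | zero => exact ⟨m, by simp, by simpa [pre] using Der.refl _, le_rfl⟩
  | succ k ih =>
    obtain ⟨M, h1, h2, h3⟩ := ih
    refine ⟨4 * M + 3, by rw [pow_succ, ← mul_assoc, ← h1]; omega, ?_, by omega⟩
    exact (((h2.ctx [0, 3, 3] []).trans ((cross2 M).cast rfl (by simp) rfl)).trans
      (((del 2).ctx (replicate (4 * M + 3) 1) []).cast rfl (by simp) rfl)).cast (by omega)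
      (by simp [pre_succ]) (by simp)

theorem long {s m : ℕ} {y : List (Fin 4)} (h : Der s y (replicate m 1)) (k N : ℕ)
    (e : N + m + 4 = s + (m + 1) * 4 * 4 ^ k) : Der N (pre k ++ y ++ [2]) [2] := by
  obtain ⟨M, h1, h2, h3⟩ := grow m k
  refine (((h.ctx (pre k) [2]).trans ((h2.ctx [] [2]).cast rfl (by simp) rfl)).trans
    ((eat M).cast rfl (by simp) rfl)).cast ?_ rfl rfl
  rw [mul_right_comm, ← h1] at e
  omega

theorem result :
    (∀ x : ℕ → List (Fin 4), (∀ n, Step (strictRules ∪ weakRules) (x n) (x (n + 1))) →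
      {n | Step strictRules (x n) (x (n + 1))}.Finite) ∧
    ∀ k : ℕ, IsGreatest {m | ∃ x y, x.length = 3 * k + 2 ∧ Der m x y} (16 * 4 ^ k - 6) ∧
      IsGreatest {m | ∃ x y, x.length = 3 * k + 3 ∧ Der m x y} (28 * 4 ^ k - 8) ∧
      IsGreatest {m | ∃ x y, x.length = 3 * k + 4 ∧ Der m x y} (40 * 4 ^ k - 7) := by
  refine ⟨main, fun k => ?_⟩
  have e0 : 1 ≤ 4 ^ k := Nat.one_le_pow _ _ (by omega)
  have h2 : Der 2 [0, 0] (replicate 6 1) := (d_a.ctx [] [0]).trans (d_a.ctx [1, 1, 1] [])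
  have h3 : Der 6 [0, 3, 0] (replicate 9 1) :=
    (((d_a.ctx [0, 3] []).trans (d_a.ctx [] [3, 1, 1, 1])).trans ((cross 3).ctx [1, 1] [])).trans
      (d_d.ctx (replicate 9 1) [])
  refine ⟨⟨⟨_, _, ?_, long (m := 3) d_a k _ (by omega)⟩, ?_⟩,
    ⟨⟨_, _, ?_, long h2 k _ (by omega)⟩, ?_⟩, ⟨_, _, ?_, long h3 k _ (by omega)⟩, ?_⟩
  · simp [length_pre]
  · exact fun m ⟨x, y, e, h⟩ => h.le_pot.trans ((pot_le x k).1 e)
  · simp [length_pre]
  · exact fun m ⟨x, y, e, h⟩ => h.le_pot.trans ((pot_le x k).2.1 e)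
  · simp [length_pre]
  · exact fun m ⟨x, y, e, h⟩ => h.le_pot.trans ((pot_le x k).2.2 e)

end Pool.Agent.Results.MP_081fbf_lc.ExactHeight
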